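import Pool.Agent.Helper48_FPT.Final

/-!
# MP_95c4c5_lc: Max-3DM under polyhedral norms is fixed-parameter tractable

There are one program of the real-number random access machine of
`Pool.Agent.Helper48_FPT.Model`, a computable function `g` and a constant `c` such that on every
instance with `n ≥ 1`, given by `f ≥ 1` pairs of facet normals `a` of a bounded unit ball in `ℝ^s`
and `3 * n` points `P`, the program stops after at most `g f * n ^ c` elementary operations and
leaves in its natural-number array `1` a partition of the points into `n` triangles with maximum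
total perimeter: the cell `(j, k)` holds the index of the `k`-th point of the `j`-th triangle.
-/

set_option autoImplicit false

namespace Pool.Agent.Results.MP_95c4c5_lc.FixedParameter

open Pool.Agent.Helper48_FPT

theorem result : ∃ (prog : Cmd) (g : ℕ → ℕ) (c : ℕ), Computable g ∧
    ∀ (f s n : ℕ) (a : Fin f → Fin s → ℝ) (P : Fin (3 * n) → Fin s → ℝ), 0 < f → 0 < n →
      Bornology.IsBounded {x : Fin s → ℝ | ∀ i, |∑ k, a i k * x k| ≤ 1} →
      prog.time (input a P) ≤ g f * n ^ c ∧
      ∃ σ : Fin n × Fin 3 ≃ Fin (3 * n),
        (∀ (j : Fin n) (k : Fin 3), (prog.run (input a P)).nat 1 j k = σ (j, k)) ∧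
        ∀ ρ : Fin n × Fin 3 ≃ Fin (3 * n), total a P ρ ≤ total a P σ :=
  ⟨prog, gf, prog.depth, primrec_gf.to_comp, fun _ _ _ a P hf hn hb => main a P hf hn hb⟩

end Pool.Agent.Results.MP_95c4c5_lc.FixedParameter
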